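import Mathlib

/-!
# The maximal-shattering sequence need not be non-decreasing (MP_522a36_co, Q1)

For every `k ≥ 2` we give a finite family of subsets of `ℕ` with `s_{k+1} = 1 < 2 ≤ s_k`.
-/

set_option autoImplicit false

open Set

namespace Pool.Agent.Results.MP_522a36_co.ShatteringNotMonotone

variable {X : Type}

/-- The family `F` shatters the finite set `Y`. -/
def Shatters (F : Set (Set X)) (Y : Finset X) : Prop :=
  ∀ Z : Finset X, Z ⊆ Y → ∃ S ∈ F, S ∩ (Y : Set X) = (Z : Set X)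

/-- The family of all unions `S_1 ∪ … ∪ S_k` of `k` members of `F`. -/
def unionFamily (F : Set (Set X)) (k : ℕ) : Set (Set X) :=
  {U | ∃ f : Fin k → Set X, (∀ i, f i ∈ F) ∧ U = ⋃ i, f i}

/-- The VC-dimension of `F` is finite. -/
def FiniteVC (F : Set (Set X)) : Prop := ∃ N : ℕ, ∀ Y : Finset X, Shatters F Y → Y.card ≤ N

/-- `d_k`, the largest size of a set shattered by the `k`-fold unions of `F`. -/
noncomputable def d (F : Set (Set X)) (k : ℕ) : ℕ :=
  sSup {n | ∃ Y : Finset X, Shatters (unionFamily F k) Y ∧ Y.card = n}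

/-- The trace family of `F` on `Y`. -/
def trace (F : Set (Set X)) (Y : Finset X) : Set (Set X) := {T | ∃ S ∈ F, T = S ∩ (Y : Set X)}

/-- `Y` and `Y'` are shatter-isomorphic: a bijection from `Y` onto `Y'` maps the trace family of `F`
on `Y` onto the trace family of `F` on `Y'`. -/
def ShatterIso (F : Set (Set X)) (Y Y' : Finset X) : Prop :=
  ∃ f : X → X, BijOn f (Y : Set X) (Y' : Set X) ∧ (fun T => f '' T) '' trace F Y = trace F Y'

/-- The sets of size `d_k` that are shattered by the `k`-fold unions of `F`. -/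
def Top (F : Set (Set X)) (k : ℕ) : Set (Finset X) :=
  {Y | Shatters (unionFamily F k) Y ∧ Y.card = d F k}

/-- `s_k`, the number of shatter-isomorphism classes of sets of size `d_k` shattered by the
`k`-fold unions of `F`. -/
noncomputable def s (F : Set (Set X)) (k : ℕ) : ℕ :=
  Set.ncard {C : Set (Finset X) | ∃ Y ∈ Top F k, C = {Y' | Y' ∈ Top F k ∧ ShatterIso F Y Y'}}

/-! ### The example -/

/-- the first block, `k + 1` points -/
def A (k : ℕ) : Finset ℕ := Finset.range (k + 1)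

/-- the second block, `k + 2` points -/
def B (k : ℕ) : Finset ℕ := Finset.Ico (k + 1) (2 * k + 3)

lemma card_A (k : ℕ) : (A k).card = k + 1 := by simp [A]
lemma card_B (k : ℕ) : (B k).card = k + 2 := by simp [B]; omega

/-- the family -/
def F (k : ℕ) : Set (Set ℕ) :=
  {S | (∃ a ∈ A k, ∃ b ∈ A k, S = {a, b} ∪ (B k : Set ℕ)) ∨ S = ∅ ∨ ∃ x ∈ B k, S = {x}}

lemma disj {k x : ℕ} (h1 : x ∈ A k) (h2 : x ∈ B k) : False := by
  simp only [A, B, Finset.mem_range, Finset.mem_Ico] at h1 h2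
  omega

/-- a member containing a point of the first block contains the second block -/
lemma mem_first {k : ℕ} {S : Set ℕ} (hS : S ∈ F k) {a : ℕ} (ha : a ∈ A k) (haS : a ∈ S) :
    (B k : Set ℕ) ⊆ S := by
  rcases hS with ⟨x, _, y, _, rfl⟩ | rfl | ⟨x, hx, rfl⟩
  · exact subset_union_right
  · exact absurd haS (by simp)
  · rw [mem_singleton_iff] at haS
    subst haS
    exact (disj ha hx).elim

/-- members are contained in the two blocks -/
lemma mem_blocks {k : ℕ} {S : Set ℕ} (hS : S ∈ F k) {x : ℕ} (hx : x ∈ S) : x ∈ A k ∨ x ∈ B k := by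
  rcases hS with ⟨a, ha, b, hb, rfl⟩ | rfl | ⟨y, hy, rfl⟩
  · rcases hx with (rfl | hx) | hx
    · exact Or.inl ha
    · rw [mem_singleton_iff] at hx; subst hx; exact Or.inl hb
    · exact Or.inr hx
  · exact absurd hx (by simp)
  · rw [mem_singleton_iff] at hx; subst hx; exact Or.inr hy

/-- a shattered set lies in one block -/
lemma one_block {k m : ℕ} {Y : Finset ℕ} (h : Shatters (unionFamily (F k) m) Y) :
    Y ⊆ A k ∨ Y ⊆ B k := by
  have hsub : ∀ y ∈ Y, ∃ U ∈ unionFamily (F k) m, U ∩ (Y : Set ℕ) = {y} := by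
    intro y hy
    obtain ⟨U, hU, h2⟩ := h {y} (by simpa using hy)
    exact ⟨U, hU, by simpa using h2⟩
  by_cases hA : ∃ a ∈ Y, a ∈ A k
  · left
    obtain ⟨a, haY, ha⟩ := hA
    intro b hb
    obtain ⟨U, ⟨f, hf, rfl⟩, hU⟩ := hsub b hb
    have hbU : b ∈ (⋃ i, f i) ∩ (Y : Set ℕ) := by rw [hU]; rfl
    obtain ⟨i, hi⟩ := mem_iUnion.1 hbU.1
    rcases mem_blocks (hf i) hi with h' | h'
    · exact h'
    · exfalso
      obtain ⟨U', ⟨f', hf', rfl⟩, hU'⟩ := hsub a haY
      have haU : a ∈ (⋃ i, f' i) ∩ (Y : Set ℕ) := by rw [hU']; rfl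
      obtain ⟨j, hj⟩ := mem_iUnion.1 haU.1
      have : b ∈ (⋃ i, f' i) ∩ (Y : Set ℕ) :=
        ⟨mem_iUnion.2 ⟨j, mem_first (hf' j) ha hj h'⟩, hb⟩
      rw [hU', mem_singleton_iff] at this
      subst this
      exact disj ha h'
  · right
    intro b hb
    obtain ⟨U, ⟨f, hf, rfl⟩, hU⟩ := hsub b hb
    have hbU : b ∈ (⋃ i, f i) ∩ (Y : Set ℕ) := by rw [hU]; rfl
    obtain ⟨i, hi⟩ := mem_iUnion.1 hbU.1
    rcases mem_blocks (hf i) hi with h' | h'
    · exact absurd ⟨b, hb, h'⟩ hA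
    · exact h'

/-- a nonempty finite set with at most `m` elements is the range of a function on `Fin m` -/
lemma exists_enum {Z : Finset ℕ} (hZ : Z.Nonempty) {m : ℕ} (hm : Z.card ≤ m) :
    ∃ e : Fin m → ℕ, Set.range e = (Z : Set ℕ) := by
  obtain ⟨z, hz⟩ := hZ
  let e0 := Z.equivFin.symm
  refine ⟨fun i => if h : i.1 < Z.card then (e0 ⟨i.1, h⟩ : ℕ) else z, ?_⟩
  ext x
  constructor
  · rintro ⟨i, rfl⟩
    dsimp only
    split_ifs with h
    · exact (e0 ⟨i.1, h⟩).2
    · exact hz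
  · intro hx
    let i := Z.equivFin ⟨x, hx⟩
    refine ⟨⟨i.1, i.2.trans_le hm⟩, ?_⟩
    dsimp only
    rw [dif_pos i.2]
    simp [e0, i]

/-- the first block is shattered by the `k`-fold unions -/
lemma shatters_A {k : ℕ} (hk : 1 ≤ k) : Shatters (unionFamily (F k) k) (A k) := by
  intro Z hZ
  rcases Z.eq_empty_or_nonempty with rfl | hne
  · refine ⟨∅, ⟨fun _ => ∅, fun _ => Or.inr (Or.inl rfl), by simp⟩, by simp⟩
  · obtain ⟨e, he⟩ := exists_enum hne (m := k + 1) ((Finset.card_le_card hZ).trans (card_A k).le)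
    have heZ : ∀ i, e i ∈ Z := fun i => by
      have : e i ∈ Set.range e := ⟨i, rfl⟩
      rw [he] at this; exact this
    refine ⟨⋃ i : Fin k, ({e i.castSucc, e i.succ} ∪ (B k : Set ℕ)), ⟨fun i =>
      {e i.castSucc, e i.succ} ∪ (B k : Set ℕ), fun i => Or.inl ⟨_, hZ (heZ _), _, hZ (heZ _), rfl⟩,
      rfl⟩, ?_⟩
    ext x
    constructor
    · rintro ⟨hx, hxA⟩
      obtain ⟨i, hi⟩ := mem_iUnion.1 hx
      rcases hi with (hi | hi) | hi
      · rw [hi]; exact heZ _
      · rw [mem_singleton_iff] at hi; rw [hi]; exact heZ _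
      · exact (disj hxA hi).elim
    · intro hx
      refine ⟨?_, hZ hx⟩
      have hx' : x ∈ Set.range e := by rw [he]; exact hx
      obtain ⟨i, rfl⟩ := hx'
      rw [mem_iUnion]
      by_cases h : i = Fin.last k
      · refine ⟨⟨k - 1, by omega⟩, Or.inl (Or.inr ?_)⟩
        rw [mem_singleton_iff]
        congr 1
        rw [h]
        ext
        simp
        omega
      · refine ⟨i.castPred h, Or.inl (Or.inl ?_)⟩
        simp

/-- a subset `Y` of the second block is shattered by the `m`-fold unions if `|Y| ≤ m + 1` -/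
lemma shatters_B {k m : ℕ} (hm : 1 ≤ m) {Y : Finset ℕ} (hY : Y ⊆ B k) (hc : Y.card ≤ m + 1) :
    Shatters (unionFamily (F k) m) Y := by
  intro Z hZ
  rcases Z.eq_empty_or_nonempty with rfl | hne
  · refine ⟨∅, ⟨fun _ => ∅, fun _ => Or.inr (Or.inl rfl), by simp⟩, by simp⟩
  · by_cases hZY : Z = Y
    · subst hZY
      have h0 : 0 ∈ A k := by simp [A]
      refine ⟨⋃ _ : Fin m, ({0, 0} ∪ (B k : Set ℕ)), ⟨fun _ => {0, 0} ∪ (B k : Set ℕ),
        fun _ => Or.inl ⟨0, h0, 0, h0, rfl⟩, rfl⟩, ?_⟩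
      rw [inter_eq_right]
      intro x hx
      exact mem_iUnion.2 ⟨⟨0, hm⟩, Or.inr (hY hx)⟩
    · have hlt : Z.card < Y.card := Finset.card_lt_card (Finset.ssubset_iff_subset_ne.2 ⟨hZ, hZY⟩)
      obtain ⟨e, he⟩ := exists_enum hne (m := m) (by omega)
      have heZ : ∀ i, e i ∈ Z := fun i => by
        have : e i ∈ Set.range e := ⟨i, rfl⟩
        rw [he] at this; exact this
      refine ⟨⋃ i : Fin m, {e i}, ⟨fun i => {e i}, fun i =>
        Or.inr (Or.inr ⟨e i, hY (hZ (heZ i)), rfl⟩), rfl⟩, ?_⟩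
      ext x
      constructor
      · rintro ⟨hx, -⟩
        obtain ⟨i, hi⟩ := mem_iUnion.1 hx
        rw [mem_singleton_iff] at hi
        rw [hi]; exact heZ _
      · intro hx
        have hx' : x ∈ Set.range e := by rw [he]; exact hx
        obtain ⟨i, rfl⟩ := hx'
        exact ⟨mem_iUnion.2 ⟨i, rfl⟩, hZ hx⟩

/-- the second block is not shattered by the `k`-fold unions -/
lemma not_shatters_B {k : ℕ} : ¬ Shatters (unionFamily (F k) k) (B k) := by
  intro h
  have hx0 : k + 1 ∈ B k := by simp [B]; omega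
  obtain ⟨U, ⟨f, hf, rfl⟩, hU⟩ := h ((B k).erase (k + 1)) (Finset.erase_subset _ _)
  have hno : ∀ i, k + 1 ∉ f i := by
    intro i hi
    have : k + 1 ∈ (⋃ i, f i) ∩ (B k : Set ℕ) := ⟨mem_iUnion.2 ⟨i, hi⟩, hx0⟩
    rw [hU] at this
    simp at this
  have hone : ∀ i, ∃ x, f i ⊆ {x} := by
    intro i
    rcases hf i with ⟨a, _, b, _, h1⟩ | h1 | ⟨x, _, h1⟩
    · exact absurd (by rw [h1]; exact Or.inr hx0) (hno i)
    · exact ⟨0, by rw [h1]; exact empty_subset _⟩
    · exact ⟨x, by rw [h1]⟩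
  choose g hg using hone
  have hsub : (B k).erase (k + 1) ⊆ Finset.univ.image g := by
    intro x hx
    have : x ∈ (⋃ i, f i) ∩ (B k : Set ℕ) := by rw [hU]; exact hx
    obtain ⟨i, hi⟩ := mem_iUnion.1 this.1
    have := hg i hi
    rw [mem_singleton_iff] at this
    exact Finset.mem_image.2 ⟨i, Finset.mem_univ _, this.symm⟩
  have h1 := Finset.card_le_card hsub
  have h2 : (Finset.univ.image g).card ≤ k := by
    refine Finset.card_image_le.trans ?_
    simp
  rw [Finset.card_erase_of_mem hx0, card_B] at h1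
  omega

lemma card_le_k {k : ℕ} {Y : Finset ℕ} (h : Shatters (unionFamily (F k) k) Y) :
    Y.card ≤ k + 1 := by
  rcases one_block h with h1 | h1
  · exact (Finset.card_le_card h1).trans (card_A k).le
  · have h2 := Finset.card_le_card h1
    rw [card_B] at h2
    by_contra h3
    have h4 : Y = B k := Finset.eq_of_subset_of_card_le h1 (by rw [card_B]; omega)
    rw [h4] at h
    exact not_shatters_B h

lemma card_le_any {k m : ℕ} {Y : Finset ℕ} (h : Shatters (unionFamily (F k) m) Y) :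
    Y.card ≤ k + 2 := by
  rcases one_block h with h1 | h1
  · have := Finset.card_le_card h1
    rw [card_A] at this
    omega
  · have := Finset.card_le_card h1
    rw [card_B] at this
    exact this

lemma d_eq {k m n : ℕ} (h1 : ∀ Y, Shatters (unionFamily (F k) m) Y → Y.card ≤ n)
    {Y : Finset ℕ} (h2 : Shatters (unionFamily (F k) m) Y) (h3 : Y.card = n) : d (F k) m = n := by
  unfold d
  apply le_antisymm
  · apply csSup_le'
    rintro x ⟨Z, hZ, rfl⟩
    exact h1 Z hZ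
  · exact le_csSup ⟨n, by rintro x ⟨Z, hZ, rfl⟩; exact h1 Z hZ⟩ ⟨Y, h2, h3⟩

lemma d_k {k : ℕ} (hk : 1 ≤ k) : d (F k) k = k + 1 :=
  d_eq (fun _ h => card_le_k h) (shatters_A hk) (card_A k)

lemma d_k_succ {k : ℕ} : d (F k) (k + 1) = k + 2 :=
  d_eq (fun _ h => card_le_any h) (shatters_B (by omega) (Finset.Subset.refl _) (card_B k).le)
    (card_B k)

/-- the family itself has finite VC-dimension -/
lemma finiteVC (k : ℕ) : FiniteVC (F k) := by
  refine ⟨k + 2, fun Y hY => ?_⟩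
  apply card_le_any (k := k) (m := 1)
  intro Z hZ
  obtain ⟨S, hS, h⟩ := hY Z hZ
  exact ⟨S, ⟨fun _ => S, fun _ => hS, by simp [iUnion_const]⟩, h⟩

/-- `s_{k+1} = 1` -/
lemma s_succ (k : ℕ) : s (F k) (k + 1) = 1 := by
  unfold s
  rw [Set.ncard_eq_one]
  refine ⟨{Y' | Y' ∈ Top (F k) (k + 1) ∧ ShatterIso (F k) (B k) Y'}, ?_⟩
  have hB : B k ∈ Top (F k) (k + 1) :=
    ⟨shatters_B (by omega) (Finset.Subset.refl _) (card_B k).le, by rw [d_k_succ, card_B]⟩
  have huniq : ∀ Y ∈ Top (F k) (k + 1), Y = B k := by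
    rintro Y ⟨h1, h2⟩
    rw [d_k_succ] at h2
    rcases one_block h1 with h3 | h3
    · have := Finset.card_le_card h3
      rw [card_A] at this
      omega
    · exact Finset.eq_of_subset_of_card_le h3 (by rw [card_B, h2])
  ext C
  constructor
  · rintro ⟨Y, hY, rfl⟩
    rw [huniq Y hY]
    rfl
  · rintro rfl
    exact ⟨B k, hB, rfl⟩

/-- `s_k ≥ 2` -/
lemma s_ge (k : ℕ) (hk : 2 ≤ k) : 2 ≤ s (F k) k := by
  unfold s
  have hsub : Top (F k) k ⊆ ((Finset.range (2 * k + 3)).powerset : Set (Finset ℕ)) := by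
    rintro Y ⟨h1, -⟩
    rw [Finset.mem_coe, Finset.mem_powerset]
    intro x hx
    rw [Finset.mem_range]
    rcases one_block h1 with h3 | h3
    · have := h3 hx
      simp only [A, Finset.mem_range] at this
      omega
    · have := h3 hx
      simp only [B, Finset.mem_Ico] at this
      omega
  have hfinT : (Top (F k) k).Finite := (Finset.finite_toSet _).subset hsub
  have hfin : {C : Set (Finset ℕ) | ∃ Y ∈ Top (F k) k,
      C = {Y' | Y' ∈ Top (F k) k ∧ ShatterIso (F k) Y Y'}}.Finite := by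
    have : {C : Set (Finset ℕ) | ∃ Y ∈ Top (F k) k,
      C = {Y' | Y' ∈ Top (F k) k ∧ ShatterIso (F k) Y Y'}} =
        (fun Y => {Y' | Y' ∈ Top (F k) k ∧ ShatterIso (F k) Y Y'}) '' Top (F k) k := by
      ext C
      constructor
      · rintro ⟨Y, hY, rfl⟩; exact ⟨Y, hY, rfl⟩
      · rintro ⟨Y, hY, rfl⟩; exact ⟨Y, hY, rfl⟩
    rw [this]
    exact hfinT.image _
  have hx0 : k + 1 ∈ B k := by simp [B]; omega
  set Y1 : Finset ℕ := (B k).erase (k + 1) with hY1
  have hc1 : Y1.card = k + 1 := by rw [hY1, Finset.card_erase_of_mem hx0, card_B]; rfl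
  have hA : A k ∈ Top (F k) k := ⟨shatters_A (by omega), by rw [d_k (by omega), card_A]⟩
  have hB : Y1 ∈ Top (F k) k :=
    ⟨shatters_B (by omega) (Finset.erase_subset _ _) hc1.le, by rw [d_k (by omega), hc1]⟩
  have hniso : ¬ ShatterIso (F k) (A k) Y1 := by
    rintro ⟨f, hf, hft⟩
    have h0 : (0 : ℕ) ∈ A k := by simp [A]
    have h1 : (1 : ℕ) ∈ A k := by simp [A]; omega
    have hT : ({0, 1} : Set ℕ) ∈ trace (F k) (A k) := by
      refine ⟨{0, 1} ∪ (B k : Set ℕ), Or.inl ⟨0, h0, 1, h1, rfl⟩, ?_⟩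
      ext x
      constructor
      · intro hx
        refine ⟨Or.inl hx, ?_⟩
        rcases hx with rfl | hx
        · exact h0
        · rw [mem_singleton_iff] at hx; rw [hx]; exact h1
      · rintro ⟨hx | hx, hxA⟩
        · exact hx
        · exact (disj hxA hx).elim
    have hfT : f '' {0, 1} ∈ trace (F k) Y1 := by
      rw [← hft]; exact ⟨_, hT, rfl⟩
    have hne : f 0 ≠ f 1 := fun h => absurd (hf.injOn h0 h1 h) (by norm_num)
    rw [image_pair] at hfT
    obtain ⟨S, hS, hSe⟩ := hfT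
    rcases hS with ⟨a, _, b, _, rfl⟩ | rfl | ⟨x, _, rfl⟩
    · -- the trace is everything
      have hall : (Y1 : Set ℕ) ⊆ {f 0, f 1} := by
        intro x hx
        rw [hSe]
        exact ⟨Or.inr (Finset.mem_of_mem_erase hx), hx⟩
      have h2 : Y1 ⊆ {f 0, f 1} := by
        intro x hx
        have := hall hx
        simpa using this
      have h3 := (Finset.card_le_card h2).trans Finset.card_le_two
      omega
    · rw [empty_inter] at hSe
      have : f 0 ∈ ({f 0, f 1} : Set ℕ) := by simp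
      rw [hSe] at this
      exact this
    · have e0 : f 0 ∈ ({f 0, f 1} : Set ℕ) := by simp
      have e1 : f 1 ∈ ({f 0, f 1} : Set ℕ) := by simp
      rw [hSe] at e0 e1
      have e0 := e0.1
      have e1 := e1.1
      rw [mem_singleton_iff] at e0 e1
      exact hne (e0.trans e1.symm)
  have hselfiso : ShatterIso (F k) Y1 Y1 :=
    ⟨id, bijOn_id _, by simp⟩
  have hCne : {Y' | Y' ∈ Top (F k) k ∧ ShatterIso (F k) (A k) Y'} ≠
      {Y' | Y' ∈ Top (F k) k ∧ ShatterIso (F k) Y1 Y'} := by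
    intro h
    have : Y1 ∈ {Y' | Y' ∈ Top (F k) k ∧ ShatterIso (F k) (A k) Y'} := by
      rw [h]; exact ⟨hB, hselfiso⟩
    exact hniso this.2
  have hle : ({{Y' | Y' ∈ Top (F k) k ∧ ShatterIso (F k) (A k) Y'},
      {Y' | Y' ∈ Top (F k) k ∧ ShatterIso (F k) Y1 Y'}} : Set (Set (Finset ℕ))) ⊆
      {C : Set (Finset ℕ) | ∃ Y ∈ Top (F k) k,
      C = {Y' | Y' ∈ Top (F k) k ∧ ShatterIso (F k) Y Y'}} := by
    rintro C (rfl | hC)
    · exact ⟨_, hA, rfl⟩
    · rw [mem_singleton_iff] at hC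
      exact ⟨_, hB, hC⟩
  calc 2 = Set.ncard ({{Y' | Y' ∈ Top (F k) k ∧ ShatterIso (F k) (A k) Y'},
      {Y' | Y' ∈ Top (F k) k ∧ ShatterIso (F k) Y1 Y'}} : Set (Set (Finset ℕ))) :=
        (Set.ncard_pair hCne).symm
    _ ≤ _ := Set.ncard_le_ncard hle hfin

/-- For every `k ≥ 2` there is a family of subsets of the infinite set `ℕ`, of finite VC-dimension,
with `d_k = k + 1`, `d_{k+1} = k + 2` and `s_{k+1} = 1 < 2 ≤ s_k`. -/
theorem result : ∀ k : ℕ, 2 ≤ k → ∃ F : Set (Set ℕ), FiniteVC F ∧ d F k = k + 1 ∧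
    d F (k + 1) = k + 2 ∧ s F (k + 1) = 1 ∧ 2 ≤ s F k :=
  fun k hk => ⟨F k, finiteVC k, d_k (by omega), d_k_succ, s_succ k, s_ge k hk⟩

end Pool.Agent.Results.MP_522a36_co.ShatteringNotMonotone
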